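import Mathlib
import Pool.Agent.helper99.TFW.Main

/-!
# Scaling of the TFW functional: arbitrary positive constants in front of the first two terms
-/

set_option autoImplicit false

open MeasureTheory Filter Topology

namespace Pool.Agent.helper95.TFWS

open Pool.Agent.Helper99.TFW (E WG Adm energy finrank_E)

/-- the scaled density `x ↦ a ρ(x / b)` -/
noncomputable def sr (a b : ℝ) (ρ : E → ℝ) (x : E) : ℝ := a * ρ (b⁻¹ • x)

/-- the scaled weak gradient of the square root -/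
noncomputable def sg (a b : ℝ) (g : E → E) (x : E) : E := (Real.sqrt a * b⁻¹) • g (b⁻¹ • x)

/-- change of variables -/
theorem cov {F : Type*} [NormedAddCommGroup F] [NormedSpace ℝ F] {b : ℝ} (hb : 0 < b) (f : E → F) :
    ∫ x, f (b⁻¹ • x) = b ^ 3 • ∫ x, f x := by
  have h := Measure.integral_comp_inv_smul_of_nonneg (volume : Measure E) f hb.le
  rw [finrank_E] at h
  exact h

theorem covc {b : ℝ} (hb : 0 < b) (c : ℝ) (f : E → ℝ) :
    ∫ x, c * f (b⁻¹ • x) = b ^ 3 * (c * ∫ x, f x) := by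
  rw [integral_const_mul, cov hb f, smul_eq_mul]
  ring

theorem aesm {F : Type*} [NormedAddCommGroup F] {b : ℝ} (hb : 0 < b) {f : E → F}
    (hf : AEStronglyMeasurable f volume) : AEStronglyMeasurable (fun x => f (b⁻¹ • x)) volume :=
  hf.comp_quasiMeasurePreserving (Measure.quasiMeasurePreserving_smul volume (inv_pos.2 hb).ne')

theorem integrable_comp {F : Type*} [NormedAddCommGroup F] [NormedSpace ℝ F] {b : ℝ} (hb : 0 < b) {f : E → F}
    (hf : Integrable f) : Integrable (fun x => f (b⁻¹ • x)) :=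
  hf.comp_smul (inv_pos.2 hb).ne'

theorem memLp_comp {b : ℝ} (hb : 0 < b) {g : E → E} (hg : MemLp g 2) :
    MemLp (fun x => g (b⁻¹ • x)) 2 := by
  rw [memLp_two_iff_integrable_sq_norm (aesm hb hg.1)]
  exact integrable_comp hb ((memLp_two_iff_integrable_sq_norm hg.1).1 hg)

theorem wg_scale {a b : ℝ} (ha : 0 < a) (hb : 0 < b) {ρ : E → ℝ} {g : E → E}
    (h : WG (fun x => Real.sqrt (ρ x)) g) : WG (fun x => Real.sqrt (sr a b ρ x)) (sg a b g) := by
  intro φ hφ hc v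
  set ψ : E → ℝ := fun y => φ (b • y) with hψ
  have hb0 : b ≠ 0 := hb.ne'
  have hφψ : ∀ x, φ x = ψ (b⁻¹ • x) := fun x => by
    simp only [hψ, smul_smul, mul_inv_cancel₀ hb0, one_smul]
  have hψs : ContDiff ℝ (⊤ : ℕ∞) ψ := hφ.comp (contDiff_const_smul b)
  have hψc : HasCompactSupport ψ := hc.comp_homeomorph (Homeomorph.smulOfNeZero b hb0)
  have hd : ∀ x, fderiv ℝ φ x v = b⁻¹ * fderiv ℝ ψ (b⁻¹ • x) v := fun x => by
    have h1 : DifferentiableAt ℝ φ (b • (b⁻¹ • x)) := (hφ.differentiable (by simp)) _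
    have h2 : HasFDerivAt ψ ((fderiv ℝ φ (b • (b⁻¹ • x))).comp (b • ContinuousLinearMap.id ℝ E)) (b⁻¹ • x) := by
      have h3 : HasFDerivAt (fun y : E => b • y) (b • ContinuousLinearMap.id ℝ E) (b⁻¹ • x) :=
        (hasFDerivAt_id (b⁻¹ • x)).const_smul b
      exact HasFDerivAt.comp (b⁻¹ • x) h1.hasFDerivAt h3
    rw [h2.fderiv]
    simp only [ContinuousLinearMap.comp_apply, smul_apply, ContinuousLinearMap.id_apply,
      map_smul, smul_smul, mul_inv_cancel₀ hb0, one_smul, smul_eq_mul]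
    rw [← mul_assoc, inv_mul_cancel₀ hb0, one_mul]
  have hs : ∀ x, Real.sqrt (sr a b ρ x) = Real.sqrt a * Real.sqrt (ρ (b⁻¹ • x)) := fun x => by
    unfold sr
    exact Real.sqrt_mul ha.le _
  have e1 : ∫ x, Real.sqrt (sr a b ρ x) * fderiv ℝ φ x v =
      b ^ 3 * ((Real.sqrt a * b⁻¹) * ∫ x, Real.sqrt (ρ x) * fderiv ℝ ψ x v) := by
    rw [← integral_const_mul, ← smul_eq_mul (b ^ 3),
      ← cov hb (fun x => (Real.sqrt a * b⁻¹) * (Real.sqrt (ρ x) * fderiv ℝ ψ x v))]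
    congr 1
    funext x
    rw [hs, hd]
    ring
  have e2 : ∫ x, inner ℝ (sg a b g x) v * φ x =
      b ^ 3 * ((Real.sqrt a * b⁻¹) * ∫ x, inner ℝ (g x) v * ψ x) := by
    rw [← integral_const_mul, ← smul_eq_mul (b ^ 3),
      ← cov hb (fun x => (Real.sqrt a * b⁻¹) * (inner ℝ (g x) v * ψ x))]
    congr 1
    funext x
    rw [hφψ x]
    unfold sg
    rw [real_inner_smul_left]
    ring
  rw [e1, e2, h ψ hψs hψc v]
  ring

theorem adm_scale {a b : ℝ} (ha : 0 < a) (hb : 0 < b) {ρ : E → ℝ} {g : E → E} (h : Adm ρ g) :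
    Adm (sr a b ρ) (sg a b g) where
  nn x := mul_nonneg ha.le (h.nn _)
  int := (integrable_comp hb h.int).const_mul a
  int53 := by
    have h1 := (integrable_comp hb h.int53).const_mul (a ^ (5 / 3 : ℝ))
    refine h1.congr (Eventually.of_forall fun x => ?_)
    simp only [sr]
    rw [Real.mul_rpow ha.le (h.nn _)]
  memg := (memLp_comp hb h.memg).const_smul (Real.sqrt a * b⁻¹)
  wg := wg_scale ha hb h.wg

theorem mass_scale {a b : ℝ} (hb : 0 < b) (ρ : E → ℝ) :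
    ∫ x, sr a b ρ x = a * b ^ 3 * ∫ x, ρ x := by
  unfold sr
  rw [integral_const_mul, cov hb ρ, smul_eq_mul, mul_assoc]

theorem sr_inv {a b : ℝ} (ha : 0 < a) (hb : 0 < b) (ρ : E → ℝ) : sr a b (sr a⁻¹ b⁻¹ ρ) = ρ := by
  funext x
  unfold sr
  rw [inv_inv, smul_smul, mul_inv_cancel₀ hb.ne', one_smul, ← mul_assoc, mul_inv_cancel₀ ha.ne', one_mul]

theorem sg_inv {a b : ℝ} (ha : 0 < a) (hb : 0 < b) (g : E → E) : sg a b (sg a⁻¹ b⁻¹ g) = g := by
  funext x
  unfold sg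
  have h1 : Real.sqrt a * b⁻¹ * (Real.sqrt a⁻¹ * b⁻¹⁻¹) = 1 := by
    rw [Real.sqrt_inv, inv_inv]
    have : Real.sqrt a ≠ 0 := (Real.sqrt_pos.2 ha).ne'
    field_simp
  rw [smul_smul, h1, one_smul, inv_inv, smul_smul, mul_inv_cancel₀ hb.ne', one_smul]

end Pool.Agent.helper95.TFWS
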